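import Pool.Agent.Q236.CR.Stm2

/-! # Project CR, job POL: the main term for polynomials -/

set_option autoImplicit false

namespace Pool.Agent.Q24.CR

open Finset Filter
open Pool.Agent.Q236.CR
open Pool.Agent.H373R2.T7 (pz Vz lamz mem_pz nuB PerB)

lemma dvd_eval_mod (P : Polynomial ℤ) (p n : ℕ) :
    (p : ℤ) ∣ P.eval (n : ℤ) ↔ (p : ℤ) ∣ P.eval (((n % p : ℕ)) : ℤ) := by
  have h1 : (n : ℤ) - ((n % p : ℕ) : ℤ) ∣ P.eval (n : ℤ) - P.eval (((n % p : ℕ)) : ℤ) :=
    Polynomial.sub_dvd_eval_sub _ _ _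
  have h2 : (p : ℤ) ∣ (n : ℤ) - ((n % p : ℕ) : ℤ) := by
    have := Int.emod_add_mul_ediv (n : ℤ) p
    refine ⟨(n : ℤ) / p, ?_⟩
    push_cast
    linarith
  have h3 := h2.trans h1
  constructor
  · intro h
    have := dvd_sub h h3
    rwa [sub_sub_cancel] at this
  · intro h
    have := dvd_add h3 h
    rwa [sub_add_cancel] at this

lemma om_le {k c : ℕ} (P : Fin k → Polynomial ℤ) (hP : ∑ i, (P i).natDegree ≤ c) {p : ℕ}
    (hp : p.Prime) (h : om P p ≠ p) : om P p ≤ c := by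
  classical
  have := Fact.mk hp
  obtain ⟨n0, hn0, hn1⟩ : ∃ n0 ∈ Finset.range p, ∀ i, ¬ (p : ℤ) ∣ (P i).eval (n0 : ℤ) := by
    by_contra hcon
    push Not at hcon
    apply h
    unfold om
    rw [Finset.filter_true_of_mem hcon, Finset.card_range]
  obtain ⟨R, hR⟩ : ∃ R : Polynomial (ZMod p), R = ∏ i, (P i).map (Int.castRingHom (ZMod p)) :=
    ⟨_, rfl⟩
  have hev : ∀ n : ℕ, R.eval (n : ZMod p) = ∏ i, (((P i).eval (n : ℤ) : ℤ) : ZMod p) := by
    intro n
    rw [hR, Polynomial.eval_prod]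
    refine Finset.prod_congr rfl fun i _ => ?_
    have : ((n : ℕ) : ZMod p) = Int.castRingHom (ZMod p) (n : ℤ) := by simp
    rw [this, Polynomial.eval_map_apply]
    rfl
  have hz : ∀ n : ℕ, R.eval (n : ZMod p) = 0 ↔ ∃ i, (p : ℤ) ∣ (P i).eval (n : ℤ) := by
    intro n
    rw [hev, Finset.prod_eq_zero_iff]
    constructor
    · rintro ⟨i, _, hi⟩
      exact ⟨i, (ZMod.intCast_zmod_eq_zero_iff_dvd _ _).1 hi⟩
    · rintro ⟨i, hi⟩
      exact ⟨i, Finset.mem_univ _, (ZMod.intCast_zmod_eq_zero_iff_dvd _ _).2 hi⟩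
  have hR0 : R ≠ 0 := by
    intro h0
    have h1 : R.eval (n0 : ZMod p) = 0 := by rw [h0, Polynomial.eval_zero]
    obtain ⟨i, hi⟩ := (hz n0).1 h1
    exact hn1 i hi
  have hdeg : R.natDegree ≤ c := by
    rw [hR]
    calc (∏ i, (P i).map (Int.castRingHom (ZMod p))).natDegree ≤
          ∑ i, ((P i).map (Int.castRingHom (ZMod p))).natDegree := Polynomial.natDegree_prod_le _ _
      _ ≤ ∑ i, (P i).natDegree := Finset.sum_le_sum fun i _ => Polynomial.natDegree_map_le
      _ ≤ c := hP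
  have hcard : om P p ≤ R.roots.toFinset.card := by
    unfold om
    apply Finset.card_le_card_of_injOn (fun n : ℕ => (n : ZMod p))
    · intro n hn
      rw [Finset.mem_coe, Finset.mem_filter] at hn
      rw [Finset.mem_coe, Multiset.mem_toFinset, Polynomial.mem_roots hR0]
      exact (hz n).2 hn.2
    · intro n hn n' hn' hnn
      rw [Finset.mem_coe, Finset.mem_filter, Finset.mem_range] at hn hn'
      have := (ZMod.natCast_eq_natCast_iff' _ _ _).1 hnn
      rwa [Nat.mod_eq_of_lt hn.1, Nat.mod_eq_of_lt hn'.1] at this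
  exact (hcard.trans (Multiset.toFinset_card_le _)).trans ((Polynomial.card_roots' R).trans hdeg)

open Classical in
lemma prod_lam {k : ℕ} (P : Fin k → Polynomial ℤ) (z n : ℕ) :
    ∏ i, lamz z ((P i).eval (n : ℤ)).natAbs =
      if ∀ p ∈ pz z, ¬ ∃ i, (p : ℤ) ∣ (P i).eval (n : ℤ) then (Vz z)⁻¹ ^ k else 0 := by
  split_ifs with h
  · have : ∀ i ∈ (Finset.univ : Finset (Fin k)), lamz z ((P i).eval (n : ℤ)).natAbs = (Vz z)⁻¹ := by
      intro i _
      unfold lamz
      rw [if_pos]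
      intro p hp hd
      exact h p hp ⟨i, Int.natCast_dvd.2 hd⟩
    rw [Finset.prod_congr rfl this, Finset.prod_const, Finset.card_univ, Fintype.card_fin]
  · push Not at h
    obtain ⟨p, hp, i, hi⟩ := h
    apply Finset.prod_eq_zero (Finset.mem_univ i)
    unfold lamz
    rw [if_neg]
    intro h2
    exact h2 p hp (Int.natCast_dvd.1 hi)

lemma Vz_pos (z : ℕ) : 0 < Vz z := by
  unfold Vz
  apply Finset.prod_pos
  intro p hp
  have h1 := (mem_pz.1 hp).2.two_le
  have h2 : (2 : ℝ) ≤ p := by exact_mod_cast h1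
  have : 1 / (p : ℝ) ≤ 1 / 2 := one_div_le_one_div_of_le (by norm_num) h2
  linarith

lemma sing_eq {k : ℕ} (P : Fin k → Polynomial ℤ) (z : ℕ) :
    sing P z = (Vz z)⁻¹ ^ k * ∏ p ∈ pz z, (1 - (om P p : ℝ) / p) := by
  unfold sing Vz
  rw [Finset.prod_div_distrib, Finset.prod_pow, inv_pow]
  field_simp

theorem pol : S_FND → S_POL := by
  classical
  intro hF k c hc
  obtain ⟨C0, y0, hC0, hF⟩ := hF c hc
  refine ⟨C0, y0, hC0, ?_⟩
  intro P hP b hb z K hz hK
  have hV := Vz_pos z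
  by_cases hA : ∃ p ∈ pz z, om P p = p
  · obtain ⟨p, hp, hpo⟩ := hA
    have hpp := (mem_pz.1 hp).2
    have h1 : ∀ n : ℕ, ∃ i, (p : ℤ) ∣ (P i).eval (n : ℤ) := by
      intro n
      have h2 : (Finset.range p).filter (fun n : ℕ => ∃ i, (p : ℤ) ∣ (P i).eval (n : ℤ)) =
          Finset.range p := by
        apply Finset.eq_of_subset_of_card_le (Finset.filter_subset _ _)
        rw [Finset.card_range]
        have : om P p = ((Finset.range p).filter
          (fun n : ℕ => ∃ i, (p : ℤ) ∣ (P i).eval (n : ℤ))).card := by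
          unfold om
          congr
        rw [← this, hpo]
      have h3 : n % p ∈ Finset.range p := Finset.mem_range.2 (Nat.mod_lt _ hpp.pos)
      rw [← h2, Finset.mem_filter] at h3
      obtain ⟨i, hi⟩ := h3.2
      exact ⟨i, (dvd_eval_mod _ _ _).2 hi⟩
    have h2 : ∑ n ∈ Finset.Icc 1 K, ∏ i, lamz z ((P i).eval (n : ℤ)).natAbs = 0 := by
      apply Finset.sum_eq_zero
      intro n _
      rw [prod_lam, if_neg]
      intro h3
      exact h3 p hp (h1 n)
    have h3 : sing P z = 0 := by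
      rw [sing_eq, Finset.prod_eq_zero hp, mul_zero]
      rw [hpo, div_self, sub_self]
      exact_mod_cast hpp.ne_zero
    rw [h2, h3]
    simp only [mul_zero, sub_zero, abs_zero, zero_add]
    positivity
  · push Not at hA
    obtain ⟨Q, hQ⟩ : ∃ Q : ℕ → ℕ → Prop,
      Q = fun p n : ℕ => p ≤ z ∧ p.Prime ∧ ∃ i, (p : ℤ) ∣ (P i).eval (n : ℤ) := ⟨_, rfl⟩
    have hnu : ∀ p ∈ pz z, nuB Q p = om P p := by
      intro p hp
      have hp' := mem_pz.1 hp
      unfold nuB om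
      congr 1
      ext n
      simp only [Finset.mem_filter, hQ]
      constructor
      · rintro ⟨h1, _, _, h2⟩; exact ⟨h1, h2⟩
      · rintro ⟨h1, h2⟩; exact ⟨h1, hp'.1, hp'.2, h2⟩
    have hPer : PerB Q c := by
      refine ⟨?_, ?_⟩
      · intro p n
        rw [hQ]
        simp only []
        constructor
        · rintro ⟨h1, h2, i, hi⟩; exact ⟨h1, h2, i, (dvd_eval_mod _ _ _).1 hi⟩
        · rintro ⟨h1, h2, i, hi⟩; exact ⟨h1, h2, i, (dvd_eval_mod _ _ _).2 hi⟩
      · intro p hp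
        by_cases hpz : p ≤ z
        · have hmem : p ∈ pz z := mem_pz.2 ⟨hpz, hp⟩
          rw [hnu p hmem]
          exact om_le P hP hp (hA p hmem)
        · have : nuB Q p = 0 := by
            unfold nuB
            rw [Finset.card_eq_zero, Finset.filter_eq_empty_iff]
            intro n _ hn
            rw [hQ] at hn
            exact hpz hn.1
          omega
    have h1 := hF b hb z K hz hK Q hPer
    have h2 : ∑ n ∈ Finset.Icc 1 K, ∏ i, lamz z ((P i).eval (n : ℤ)).natAbs =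
        (Vz z)⁻¹ ^ k * ((((Finset.Icc 1 K).filter (fun n : ℕ => ∀ p ∈ pz z, ¬ Q p n)).card : ℕ) : ℝ) := by
      rw [Finset.sum_congr rfl (fun n _ => prod_lam P z n), Finset.sum_ite, Finset.sum_const_zero,
        add_zero, Finset.sum_const, nsmul_eq_mul, mul_comm]
      congr 3
      ext n
      simp only [Finset.mem_filter, hQ]
      constructor
      · rintro ⟨g1, g2⟩; exact ⟨g1, fun p hp h => g2 p hp h.2.2⟩
      · rintro ⟨g1, g2⟩
        exact ⟨g1, fun p hp h => g2 p hp ⟨(mem_pz.1 hp).1, (mem_pz.1 hp).2, h⟩⟩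
    have h3 : ∏ p ∈ pz z, (1 - (nuB Q p : ℝ) / p) = ∏ p ∈ pz z, (1 - (om P p : ℝ) / p) := by
      refine Finset.prod_congr rfl fun p hp => ?_
      rw [hnu p hp]
    rw [h3] at h1
    rw [h2, sing_eq]
    have hVk : 0 ≤ (Vz z)⁻¹ ^ k := by positivity
    have h4 := mul_le_mul_of_nonneg_left h1 hVk
    calc |(Vz z)⁻¹ ^ k * ((((Finset.Icc 1 K).filter (fun n : ℕ => ∀ p ∈ pz z, ¬ Q p n)).card : ℕ) : ℝ) -
          K * ((Vz z)⁻¹ ^ k * ∏ p ∈ pz z, (1 - (om P p : ℝ) / p))| =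
        |(Vz z)⁻¹ ^ k * (((((Finset.Icc 1 K).filter (fun n : ℕ => ∀ p ∈ pz z, ¬ Q p n)).card : ℕ) : ℝ) -
          K * ∏ p ∈ pz z, (1 - (om P p : ℝ) / p))| := by
          congr 1
          ring
      _ = (Vz z)⁻¹ ^ k * |((((Finset.Icc 1 K).filter (fun n : ℕ => ∀ p ∈ pz z, ¬ Q p n)).card : ℕ) : ℝ) -
          K * ∏ p ∈ pz z, (1 - (om P p : ℝ) / p)| := by
          rw [abs_mul, abs_of_nonneg hVk]
      _ ≤ _ := h4
      _ = _ := by ring

end Pool.Agent.Q24.CR
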