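import Pool.Agent.Q236.CR.Stm2

/-! # Project CR, job GRD: all `K` at once -/

set_option autoImplicit false

namespace Pool.Agent.Q24.CR

open Finset Filter
open Pool.Agent.Q236.CR

/-- Chebyshev -/
lemma cheb {Ω : Type} (S : Finset Ω) (f : Ω → ℝ) (t M : ℝ) (ht : 0 < t)
    (h : ∑ c ∈ S, f c ^ 2 ≤ M) [DecidablePred fun c => t < f c] :
    ((S.filter (fun c => t < f c)).card : ℝ) * t ^ 2 ≤ M := by
  have h1 : ((S.filter (fun c => t < f c)).card : ℝ) * t ^ 2 =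
      ∑ c ∈ S.filter (fun c => t < f c), t ^ 2 := by
    rw [Finset.sum_const, nsmul_eq_mul]
  rw [h1]
  calc ∑ c ∈ S.filter (fun c => t < f c), t ^ 2 ≤ ∑ c ∈ S.filter (fun c => t < f c), f c ^ 2 := by
        apply Finset.sum_le_sum
        intro c hc
        have := (Finset.mem_filter.1 hc).2
        exact pow_le_pow_left₀ ht.le this.le 2
    _ ≤ ∑ c ∈ S, f c ^ 2 := by
        apply Finset.sum_le_sum_of_subset_of_nonneg (Finset.filter_subset _ _)
        intro c _ _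
        positivity
    _ ≤ M := h

theorem grd : S_GRD := by
  classical
  intro A m
  refine ⟨4 * A + m + 8, A + m + 4, ⌈Real.exp 8⌉₊, ?_⟩
  intro H hH Ω S a K0 K1 hK0 hK1 ha hsq
  have hH8 : Real.exp 8 ≤ H := Nat.ceil_le.1 hH
  have hH0 : (0 : ℝ) < H := lt_of_lt_of_le (Real.exp_pos 8) hH8
  obtain ⟨L, hL⟩ : ∃ L : ℝ, L = Real.log H := ⟨_, rfl⟩
  rw [← hL] at hK0 ha hsq ⊢
  have hL8 : 8 ≤ L := by
    rw [hL]
    exact (Real.le_log_iff_exp_le hH0).2 hH8
  have hL0 : 0 < L := by linarith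
  have hL1 : 1 ≤ L := by linarith
  obtain ⟨η, hη⟩ : ∃ η : ℝ, η = 1 / L ^ (A + m + 3) := ⟨_, rfl⟩
  have hη0 : 0 < η := by rw [hη]; positivity
  have hη1 : η ≤ 1 / 8 := by
    rw [hη]
    apply one_div_le_one_div_of_le (by norm_num)
    calc (8 : ℝ) ≤ L ^ 1 := by rw [pow_one]; exact hL8
      _ ≤ L ^ (A + m + 3) := pow_le_pow_right₀ hL1 (by omega)
  obtain ⟨κ, hκ⟩ : ∃ κ : ℕ → ℕ, κ = fun i : ℕ => ⌊Real.exp ((i : ℝ) * η)⌋₊ := ⟨_, rfl⟩
  obtain ⟨T, hT⟩ : ∃ T : Finset ℕ, T = (Finset.range (⌊L / η⌋₊ + 1)).filter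
    (fun i => K0 ≤ κ i ∧ κ i ≤ K1) := ⟨_, rfl⟩
  obtain ⟨bad, hbad⟩ : ∃ bad : ℕ → Finset Ω, bad = fun i => S.filter
    (fun c => (κ i : ℝ) / (2 * L ^ A) < ‖∑ n ∈ Finset.Icc 1 (κ i), a c n‖) := ⟨_, rfl⟩
  have hLB : L ^ (A + m + 4) ≤ K0 := hK0
  have hL4 : (4096 : ℝ) ≤ L ^ (A + m + 4) := by
    calc (4096 : ℝ) = 8 ^ 4 := by norm_num
      _ ≤ L ^ 4 := pow_le_pow_left₀ (by norm_num) hL8 4
      _ ≤ L ^ (A + m + 4) := pow_le_pow_right₀ hL1 (by omega)
  have hsub : S.filter (fun c => ∃ K : ℕ, 2 * K0 ≤ K ∧ K ≤ K1 ∧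
      (K : ℝ) / L ^ A < ‖∑ n ∈ Finset.Icc 1 K, a c n‖) ⊆ T.biUnion bad := by
    intro c hc
    obtain ⟨hcS, K, hK2, hK1', hKb⟩ := Finset.mem_filter.1 hc
    have hKr : 2 * (K0 : ℝ) ≤ K := by exact_mod_cast hK2
    have hKpos : (0 : ℝ) < K := by linarith
    have hlogK : Real.log K ≤ L := by
      rw [hL]
      apply Real.log_le_log hKpos
      exact_mod_cast hK1'.trans hK1
    have hlogK0 : 0 ≤ Real.log K := Real.log_nonneg (by linarith)
    obtain ⟨i, hi⟩ : ∃ i : ℕ, i = ⌊Real.log K / η⌋₊ := ⟨_, rfl⟩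
    have i1 : (i : ℝ) * η ≤ Real.log K := by
      have : (i : ℝ) ≤ Real.log K / η := by
        rw [hi]
        exact Nat.floor_le (by positivity)
      rwa [le_div_iff₀ hη0] at this
    have i2 : Real.log K < ((i : ℝ) + 1) * η := by
      have : Real.log K / η < (i : ℝ) + 1 := by
        rw [hi]
        exact Nat.lt_floor_add_one _
      rwa [div_lt_iff₀ hη0] at this
    have i3 : ((κ i : ℕ) : ℝ) ≤ K := by
      rw [hκ]
      calc ((⌊Real.exp (i * η)⌋₊ : ℕ) : ℝ) ≤ Real.exp (i * η) := Nat.floor_le (Real.exp_pos _).le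
        _ ≤ Real.exp (Real.log K) := Real.exp_le_exp.2 i1
        _ = K := Real.exp_log hKpos
    have i4 : (K : ℝ) - K * η - 1 ≤ κ i := by
      have j1 : Real.exp (i * η) < ((κ i : ℕ) : ℝ) + 1 := by
        rw [hκ]
        exact Nat.lt_floor_add_one _
      have j2 : (K : ℝ) * Real.exp (-η) ≤ Real.exp (i * η) := by
        calc (K : ℝ) * Real.exp (-η) = Real.exp (Real.log K - η) := by
              rw [sub_eq_add_neg, Real.exp_add, Real.exp_log hKpos]
          _ ≤ Real.exp (i * η) := Real.exp_le_exp.2 (by linarith)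
      have j3 : 1 - η ≤ Real.exp (-η) := by linarith [Real.add_one_le_exp (-η)]
      nlinarith
    have i5 : κ i ≤ K := by exact_mod_cast i3
    have i6 : (K : ℝ) / 2 ≤ κ i := by nlinarith
    have hiT : i ∈ T := by
      rw [hT, Finset.mem_filter, Finset.mem_range]
      refine ⟨?_, ?_, i5.trans hK1'⟩
      · rw [Nat.lt_succ_iff, hi]
        exact Nat.floor_le_floor (div_le_div_of_nonneg_right hlogK hη0.le)
      · have : (K0 : ℝ) ≤ κ i := by linarith
        exact_mod_cast this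
    rw [Finset.mem_biUnion]
    refine ⟨i, hiT, ?_⟩
    rw [hbad]
    simp only [Finset.mem_filter]
    refine ⟨hcS, ?_⟩
    -- the difference
    have hsplit : ∑ n ∈ Finset.Icc 1 K, a c n = ∑ n ∈ Finset.Icc 1 (κ i), a c n +
        ∑ n ∈ Finset.Ioc (κ i) K, a c n := by
      have e1 : Finset.Icc 1 K = Finset.Ioc 0 K := rfl
      have e2 : Finset.Icc 1 (κ i) = Finset.Ioc 0 (κ i) := rfl
      rw [e1, e2, Finset.sum_Ioc_consecutive _ (Nat.zero_le _) i5]
    have htail : ‖∑ n ∈ Finset.Ioc (κ i) K, a c n‖ ≤ (K - κ i) * L ^ m := by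
      calc ‖∑ n ∈ Finset.Ioc (κ i) K, a c n‖ ≤ ∑ n ∈ Finset.Ioc (κ i) K, ‖a c n‖ := norm_sum_le _ _
        _ ≤ ∑ n ∈ Finset.Ioc (κ i) K, L ^ m := by
            apply Finset.sum_le_sum
            intro n hn
            rw [Finset.mem_Ioc] at hn
            exact ha c hcS n (Finset.mem_Icc.2 ⟨by omega, by omega⟩)
        _ = (K - κ i) * L ^ m := by
            rw [Finset.sum_const, Nat.card_Ioc, nsmul_eq_mul, Nat.cast_sub i5]
    have hLm : 0 < L ^ m := by positivity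
    have hLA : 0 < L ^ A := by positivity
    have t1 : ((K : ℝ) - κ i) * L ^ m ≤ (K * η + 1) * L ^ m :=
      mul_le_mul_of_nonneg_right (by linarith) hLm.le
    have t2 : (K : ℝ) * η * L ^ m ≤ (K : ℝ) / (8 * L ^ A) := by
      have e1 : (K : ℝ) * η * L ^ m = K / (L ^ 3 * L ^ A) := by
        rw [hη, show A + m + 3 = 3 + A + m by ring, pow_add, pow_add]
        field_simp
      rw [e1]
      apply div_le_div_of_nonneg_left hKpos.le (by positivity)
      apply mul_le_mul_of_nonneg_right _ hLA.le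
      calc (8 : ℝ) ≤ L := hL8
        _ = L ^ 1 := (pow_one _).symm
        _ ≤ L ^ 3 := pow_le_pow_right₀ hL1 (by norm_num)
    have t3 : L ^ m ≤ (K : ℝ) / (8 * L ^ A) := by
      rw [le_div_iff₀ (by positivity)]
      have e1 : L ^ (A + m + 4) = L ^ m * (L ^ 4 * L ^ A) := by
        rw [pow_add, pow_add]; ring
      have e2 : (8 : ℝ) ≤ L ^ 4 := by
        calc (8 : ℝ) ≤ L := hL8
          _ = L ^ 1 := (pow_one _).symm
          _ ≤ L ^ 4 := pow_le_pow_right₀ hL1 (by norm_num)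
      calc L ^ m * (8 * L ^ A) ≤ L ^ m * (L ^ 4 * L ^ A) := by
            apply mul_le_mul_of_nonneg_left _ hLm.le
            exact mul_le_mul_of_nonneg_right e2 hLA.le
        _ = L ^ (A + m + 4) := e1.symm
        _ ≤ K := by linarith
    have t4 : ‖∑ n ∈ Finset.Icc 1 K, a c n‖ ≤ ‖∑ n ∈ Finset.Icc 1 (κ i), a c n‖ +
        (K - κ i) * L ^ m := by
      rw [hsplit]
      exact (norm_add_le _ _).trans (by linarith)
    have t5 : (K : ℝ) / (8 * L ^ A) = (K : ℝ) / L ^ A / 8 := by field_simp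
    have t6 : (κ i : ℝ) / (2 * L ^ A) ≤ (K : ℝ) / L ^ A / 2 := by
      rw [div_div, mul_comm (L ^ A) 2]
      exact div_le_div_of_nonneg_right i3 (by positivity)
    have t7 : 0 < (K : ℝ) / L ^ A := by positivity
    rw [t5] at t2 t3
    nlinarith
  have hbadc : ∀ i ∈ T, ((bad i).card : ℝ) ≤ 4 * L ^ (2 * A) / L ^ (4 * A + m + 8) * S.card := by
    intro i hiT
    rw [hT, Finset.mem_filter] at hiT
    obtain ⟨_, hi1, hi2⟩ := hiT
    have hκ0 : (0 : ℝ) < κ i := by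
      have : (K0 : ℝ) ≤ κ i := by exact_mod_cast hi1
      linarith
    have h1 := cheb S (fun c => ‖∑ n ∈ Finset.Icc 1 (κ i), a c n‖)
      ((κ i : ℝ) / (2 * L ^ A)) _ (by positivity) (hsq (κ i) hi1 hi2)
    have h2 : ((bad i).card : ℝ) * ((κ i : ℝ) / (2 * L ^ A)) ^ 2 ≤
        S.card * ((κ i : ℝ) ^ 2 / L ^ (4 * A + m + 8)) := by
      rw [hbad]
      exact h1
    have h3 : ((κ i : ℝ) / (2 * L ^ A)) ^ 2 = (κ i : ℝ) ^ 2 / (4 * L ^ (2 * A)) := by
      rw [div_pow, mul_pow, ← pow_mul, mul_comm A 2]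
      norm_num
    rw [h3] at h2
    have h4 : ((bad i).card : ℝ) * ((κ i : ℝ) ^ 2 / (4 * L ^ (2 * A))) =
        ((bad i).card : ℝ) / (4 * L ^ (2 * A)) * (κ i : ℝ) ^ 2 := by ring
    have h5 : (S.card : ℝ) * ((κ i : ℝ) ^ 2 / L ^ (4 * A + m + 8)) =
        S.card / L ^ (4 * A + m + 8) * (κ i : ℝ) ^ 2 := by ring
    rw [h4, h5] at h2
    have h6 := le_of_mul_le_mul_right h2 (by positivity)
    rw [div_le_iff₀ (by positivity)] at h6
    calc ((bad i).card : ℝ) ≤ _ := h6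
      _ = _ := by ring
  have hTc : (T.card : ℝ) ≤ 2 * L ^ (A + m + 4) := by
    have h1 : T.card ≤ ⌊L / η⌋₊ + 1 := by
      rw [hT]
      exact (Finset.card_filter_le _ _).trans (by rw [Finset.card_range])
    have h2 : ((⌊L / η⌋₊ : ℕ) : ℝ) ≤ L / η := Nat.floor_le (by positivity)
    have h3 : L / η = L ^ (A + m + 4) := by
      rw [hη]
      field_simp
      ring
    have h4 : (T.card : ℝ) ≤ ((⌊L / η⌋₊ : ℕ) : ℝ) + 1 := by exact_mod_cast h1
    rw [h3] at h2 h4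
    linarith
  have hfin : (((S.filter (fun c => ∃ K : ℕ, 2 * K0 ≤ K ∧ K ≤ K1 ∧
      (K : ℝ) / L ^ A < ‖∑ n ∈ Finset.Icc 1 K, a c n‖)).card : ℕ) : ℝ) ≤
      T.card * (4 * L ^ (2 * A) / L ^ (4 * A + m + 8) * S.card) := by
    calc (((S.filter (fun c => ∃ K : ℕ, 2 * K0 ≤ K ∧ K ≤ K1 ∧
      (K : ℝ) / L ^ A < ‖∑ n ∈ Finset.Icc 1 K, a c n‖)).card : ℕ) : ℝ) ≤
          (((T.biUnion bad).card : ℕ) : ℝ) := by exact_mod_cast Finset.card_le_card hsub
      _ ≤ ((∑ i ∈ T, (bad i).card : ℕ) : ℝ) := by exact_mod_cast Finset.card_biUnion_le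
      _ = ∑ i ∈ T, ((bad i).card : ℝ) := by push_cast; rfl
      _ ≤ ∑ i ∈ T, 4 * L ^ (2 * A) / L ^ (4 * A + m + 8) * S.card := Finset.sum_le_sum hbadc
      _ = _ := by rw [Finset.sum_const, nsmul_eq_mul]
  refine hfin.trans ?_
  have hS0 : (0 : ℝ) ≤ S.card := Nat.cast_nonneg _
  calc (T.card : ℝ) * (4 * L ^ (2 * A) / L ^ (4 * A + m + 8) * S.card) ≤
        2 * L ^ (A + m + 4) * (4 * L ^ (2 * A) / L ^ (4 * A + m + 8) * S.card) :=
        mul_le_mul_of_nonneg_right hTc (by positivity)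
    _ = 8 / L ^ (A + 4) * S.card := by
        rw [show 4 * A + m + 8 = (A + m + 4) + 2 * A + (A + 4) by ring, pow_add L _ (A + 4),
          pow_add L (A + m + 4) (2 * A)]
        field_simp
        ring
    _ ≤ 1 / L ^ A * S.card := by
        apply mul_le_mul_of_nonneg_right _ hS0
        rw [div_le_div_iff₀ (by positivity) (by positivity), one_mul, pow_add, mul_comm]
        apply mul_le_mul_of_nonneg_left _ (by positivity)
        calc (8 : ℝ) ≤ L := hL8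
          _ = L ^ 1 := (pow_one _).symm
          _ ≤ L ^ 4 := pow_le_pow_right₀ hL1 (by norm_num)
    _ = S.card / L ^ A := by ring

end Pool.Agent.Q24.CR
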