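import Pool.Agent.Q236.CR.Stm2

/-! # Project CR, job MUL: multiplicities -/

set_option autoImplicit false

namespace Pool.Agent.Q24.CR

open Finset Filter
open Pool.Agent.H300R2.FB (bx)
open Pool.Agent.Q236.CR

/-- the invariant of a solution -/
def code (j : ℕ) (H : Fin (j - 1) → ℕ) (a0 k : ℕ) (t : (Fin (j - 1) → ℤ) × ℕ × ℕ) :
    ℕ × (Fin (j - 1) → ℕ) :=
  ((t.2.1 - a0 - 1) / k, fun i => (t.1 i + H i).toNat / k)

lemma code_inj {j : ℕ} (hj : 1 ≤ j) {H : Fin (j - 1) → ℕ} {a0 k : ℕ} {σ m : ℤ} (hk : 1 ≤ k)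
    (hσ : σ = 1 ∨ σ = -1) {t t' : (Fin (j - 1) → ℤ) × ℕ × ℕ} (h1 : ∀ i, -(H i : ℤ) ≤ t.1 i)
    (h1' : ∀ i, -(H i : ℤ) ≤ t'.1 i) (h2 : a0 < t.2.1) (h2' : a0 < t'.2.1)
    (h3 : bval j t.1 σ t.2.1 t.2.2 k = m) (h3' : bval j t'.1 σ t'.2.1 t'.2.2 k = m)
    (hc : code j H a0 k t = code j H a0 k t') : t = t' := by
  obtain ⟨r, a, d⟩ := t
  obtain ⟨r', a', d'⟩ := t'
  simp only at h1 h1' h2 h2' h3 h3'
  have hk0 : (k : ℤ) ≠ 0 := by exact_mod_cast (by omega : k ≠ 0)
  simp only [code, Prod.mk.injEq] at hc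
  obtain ⟨hc1, hc2⟩ := hc
  unfold bval at h3 h3'
  have hkj : (k : ℤ) ∣ (k : ℤ) ^ j := dvd_pow_self _ (by omega)
  -- the constant terms agree modulo `k`
  have hdiff : (a : ℤ) - a' + ∑ i : Fin (j - 1), (r i - r' i) * (k : ℤ) ^ ((i : ℕ) + 1) +
      (σ * (d - d')) * (k : ℤ) ^ j = 0 := by
    have e : ∑ i : Fin (j - 1), (r i - r' i) * (k : ℤ) ^ ((i : ℕ) + 1) =
        ∑ i : Fin (j - 1), r i * (k : ℤ) ^ ((i : ℕ) + 1) -
          ∑ i : Fin (j - 1), r' i * (k : ℤ) ^ ((i : ℕ) + 1) := by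
      rw [← Finset.sum_sub_distrib]
      refine Finset.sum_congr rfl fun i _ => ?_
      ring
    rw [e]
    linear_combination h3 - h3'
  have ha : a = a' := by
    have h4 : (k : ℤ) ∣ (a : ℤ) - a' := by
      have h5 : (a : ℤ) - a' = -(∑ i : Fin (j - 1), (r i - r' i) * (k : ℤ) ^ ((i : ℕ) + 1)) -
        (σ * (d - d')) * (k : ℤ) ^ j := by linear_combination hdiff
      rw [h5]
      apply dvd_sub
      · rw [dvd_neg]
        apply Finset.dvd_sum
        intro i _
        exact Dvd.dvd.mul_left (dvd_pow_self _ (by omega)) _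
      · exact Dvd.dvd.mul_left hkj _
    have h6 : (a - a0 - 1) % k = (a' - a0 - 1) % k := by
      have h7 : ((a - a0 - 1 : ℕ) : ℤ) - ((a' - a0 - 1 : ℕ) : ℤ) = (a : ℤ) - a' := by omega
      rw [← h7] at h4
      exact ((Nat.modEq_iff_dvd.2 h4) : (a' - a0 - 1) ≡ (a - a0 - 1) [MOD k]).symm
    have h8 := Nat.div_add_mod (a - a0 - 1) k
    have h9 := Nat.div_add_mod (a' - a0 - 1) k
    rw [hc1, h6] at h8
    omega
  subst ha
  rw [sub_self, zero_add] at hdiff
  have hr : ∀ n : ℕ, ∀ i : Fin (j - 1), (i : ℕ) = n → r i = r' i := by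
    intro n
    induction n using Nat.strong_induction_on with
    | _ n ih =>
      intro i hi
      have h4 : (k : ℤ) ∣ r i - r' i := by
        have h5 : (k : ℤ) ^ ((i : ℕ) + 1) * k ∣ (k : ℤ) ^ ((i : ℕ) + 1) * (r i - r' i) := by
          have h6 := Finset.add_sum_erase Finset.univ
            (fun i : Fin (j - 1) => (r i - r' i) * (k : ℤ) ^ ((i : ℕ) + 1)) (Finset.mem_univ i)
          have h7 : (k : ℤ) ^ ((i : ℕ) + 1) * (r i - r' i) =
              -(∑ l ∈ Finset.univ.erase i, (r l - r' l) * (k : ℤ) ^ ((l : ℕ) + 1)) -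
                (σ * (d - d')) * (k : ℤ) ^ j := by
            linear_combination hdiff + h6
          rw [h7, ← pow_succ]
          apply dvd_sub
          · rw [dvd_neg]
            apply Finset.dvd_sum
            intro l hl
            rcases lt_trichotomy (l : ℕ) (i : ℕ) with h | h | h
            · rw [ih l (by omega) l rfl, sub_self, zero_mul]
              exact dvd_zero _
            · exact absurd (Fin.ext h) (Finset.mem_erase.1 hl).1
            · exact Dvd.dvd.mul_left (pow_dvd_pow _ (by omega)) _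
          · exact Dvd.dvd.mul_left (pow_dvd_pow _ (by omega)) _
        exact (mul_dvd_mul_iff_left (pow_ne_zero _ hk0)).1 h5
      have h5 : (r i + H i).toNat % k = (r' i + H i).toNat % k := by
        have h6 : (((r i + H i).toNat : ℕ) : ℤ) - (((r' i + H i).toNat : ℕ) : ℤ) = r i - r' i := by
          have := h1 i
          have := h1' i
          omega
        rw [← h6] at h4
        exact ((Nat.modEq_iff_dvd.2 h4) : (r' i + H i).toNat ≡ (r i + H i).toNat [MOD k]).symm
      have h6 := congrFun hc2 i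
      have h8 := Nat.div_add_mod (r i + H i).toNat k
      have h9 := Nat.div_add_mod (r' i + H i).toNat k
      rw [h6, h5] at h8
      have := h1 i
      have := h1' i
      omega
  have hrr : r = r' := by
    funext i
    exact hr i i rfl
  subst hrr
  have hs : ∑ i : Fin (j - 1), (r i - r i) * (k : ℤ) ^ ((i : ℕ) + 1) = 0 := by
    apply Finset.sum_eq_zero
    intro i _
    rw [sub_self, zero_mul]
  rw [hs, zero_add] at hdiff
  have h4 := (mul_eq_zero.1 hdiff).resolve_right (pow_ne_zero _ hk0)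
  have h5 : (d : ℤ) - d' = 0 := by
    rcases hσ with h | h
    · rw [h] at h4; linarith
    · rw [h] at h4; linarith
  have h6 : d = d' := by omega
  subst h6
  rfl

theorem mul : S_MUL := by
  intro j hj H A a0 D k σ m hk hkA hkH hσ
  have hk0 : (0 : ℝ) < k := by exact_mod_cast hk
  have h1 : ((bx j H ×ˢ (Finset.Ioc a0 (a0 + A) ×ˢ Finset.Ioc D (2 * D))).filter
    (fun t : (Fin (j - 1) → ℤ) × ℕ × ℕ => bval j t.1 σ t.2.1 t.2.2 k = m)).card ≤
      (Finset.range ((A - 1) / k + 1) ×ˢ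
        Fintype.piFinset (fun i : Fin (j - 1) => Finset.range (2 * H i / k + 1))).card := by
    apply Finset.card_le_card_of_injOn (code j H a0 k)
    · intro t ht
      rw [Finset.mem_coe, Finset.mem_filter, Finset.mem_product, Finset.mem_product, bx,
        Fintype.mem_piFinset] at ht
      obtain ⟨⟨hr, ha, hd⟩, _⟩ := ht
      rw [Finset.mem_Ioc] at ha
      rw [Finset.mem_coe, Finset.mem_product, Fintype.mem_piFinset]
      refine ⟨?_, fun i => ?_⟩
      · rw [Finset.mem_range, Nat.lt_succ_iff]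
        exact Nat.div_le_div_right (by omega)
      · rw [Finset.mem_range, Nat.lt_succ_iff]
        apply Nat.div_le_div_right
        have := Finset.mem_Icc.1 (hr i)
        omega
    · intro t ht t' ht' hc
      rw [Finset.mem_coe, Finset.mem_filter, Finset.mem_product, Finset.mem_product, bx,
        Fintype.mem_piFinset] at ht ht'
      obtain ⟨⟨hr, ha, hd⟩, hv⟩ := ht
      obtain ⟨⟨hr', ha', hd'⟩, hv'⟩ := ht'
      exact code_inj hj hk hσ (fun i => (Finset.mem_Icc.1 (hr i)).1)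
        (fun i => (Finset.mem_Icc.1 (hr' i)).1) (Finset.mem_Ioc.1 ha).1 (Finset.mem_Ioc.1 ha').1
        hv hv' hc
  have h2 : (((Finset.range ((A - 1) / k + 1) ×ˢ
        Fintype.piFinset (fun i : Fin (j - 1) => Finset.range (2 * H i / k + 1))).card : ℕ) : ℝ) ≤
      (2 * A / k) * ∏ i : Fin (j - 1), (2 * ((2 * H i + 1 : ℕ) : ℝ) / k) := by
    rw [Finset.card_product, Fintype.card_piFinset, Finset.card_range, Nat.cast_mul, Nat.cast_prod]
    simp only [Finset.card_range]
    apply mul_le_mul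
    · have h3 : (((A - 1) / k : ℕ) : ℝ) ≤ ((A - 1 : ℕ) : ℝ) / k := Nat.cast_div_le
      have h4 : ((A - 1 : ℕ) : ℝ) = A - 1 := by
        rw [Nat.cast_sub (by omega)]
        simp
      have h5 : (k : ℝ) ≤ A := by exact_mod_cast hkA
      push_cast
      rw [h4] at h3
      calc (((A - 1) / k : ℕ) : ℝ) + 1 ≤ ((A : ℝ) - 1) / k + 1 := by linarith
        _ ≤ 2 * A / k := by
          rw [div_add_one hk0.ne', div_le_div_iff_of_pos_right hk0]
          linarith
    · apply Finset.prod_le_prod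
      · intro i _
        positivity
      · intro i _
        have h3 : ((2 * H i / k : ℕ) : ℝ) ≤ ((2 * H i : ℕ) : ℝ) / k := Nat.cast_div_le
        have h5 : (k : ℝ) ≤ 2 * H i + 1 := by exact_mod_cast hkH i
        push_cast at h3 ⊢
        calc ((2 * H i / k : ℕ) : ℝ) + 1 ≤ (2 * (H i : ℝ)) / k + 1 := by linarith
          _ ≤ 2 * (2 * (H i : ℝ) + 1) / k := by
            rw [div_add_one hk0.ne', div_le_div_iff_of_pos_right hk0]
            linarith
    · positivity
    · positivity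
  calc (((((bx j H ×ˢ (Finset.Ioc a0 (a0 + A) ×ˢ Finset.Ioc D (2 * D))).filter
    (fun t : (Fin (j - 1) → ℤ) × ℕ × ℕ => bval j t.1 σ t.2.1 t.2.2 k = m)).card : ℕ) : ℝ)) ≤
      (2 * A / k) * ∏ i : Fin (j - 1), (2 * ((2 * H i + 1 : ℕ) : ℝ) / k) :=
        (by exact_mod_cast h1 : (_ : ℝ) ≤ _).trans h2
    _ = _ := by
      rw [Finset.prod_div_distrib, Finset.prod_mul_distrib]
      simp only [Finset.prod_const, Finset.card_univ, Fintype.card_fin]
      obtain ⟨n, rfl⟩ : ∃ n, j = n + 1 := ⟨j - 1, by omega⟩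
      simp only [Nat.add_sub_cancel]
      rw [pow_succ, pow_succ]
      field_simp

end Pool.Agent.Q24.CR
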